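import Pool.Agent.helper22.DL.SpecE1

namespace Pool.Agent.DL

open Matrix Complex MeasureTheory Set Filter Topology
open scoped ComplexOrder Manifold ContDiff ComplexConjugate

noncomputable section

theorem EIX_det (a : ℂ) :
    ((ContinuousLinearMap.toSpanSingleton ℂ a).restrictScalars ℝ : ℂ →L[ℝ] ℂ).det = ‖a‖ ^ 2 := by
  have h : (((ContinuousLinearMap.toSpanSingleton ℂ a).restrictScalars ℝ : ℂ →L[ℝ] ℂ) :
      ℂ →ₗ[ℝ] ℂ) = Algebra.lmul ℝ ℂ a := by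
    ext; simp [mul_comm]
  rw [ContinuousLinearMap.det, h, ← Algebra.norm_apply, Algebra.norm_complex_apply,
    Complex.normSq_eq_norm_sq]

theorem EIX_image (R : ℝ) (hR : 1 < R) : (fun ξ : ℂ => ξ⁻¹) '' {ξ : ℂ | 1 < ‖ξ‖ ∧ ‖ξ‖ < R} =
    {η : ℂ | 1 / R < ‖η‖ ∧ ‖η‖ < 1} := by
  have hR0 : 0 < R := by linarith
  ext η
  constructor
  · rintro ⟨ξ, ⟨h1, h2⟩, rfl⟩
    have h0 : 0 < ‖ξ‖ := by linarith
    constructor
    · show 1 / R < ‖ξ⁻¹‖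
      rw [norm_inv, one_div]
      exact inv_strictAnti₀ h0 h2
    · show ‖ξ⁻¹‖ < 1
      rw [norm_inv]
      exact inv_lt_one_of_one_lt₀ h1
  · rintro ⟨h1, h2⟩
    have h0 : 0 < ‖η‖ := lt_trans (by positivity) h1
    refine ⟨η⁻¹, ⟨?_, ?_⟩, inv_inv η⟩
    · rw [norm_inv]
      exact (one_lt_inv₀ h0).mpr h2
    · rw [norm_inv]
      rw [one_div] at h1
      exact (inv_lt_comm₀ hR0 h0).mp h1

theorem EIX : EIX_stmt := by
  intro E _ _ f R hR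
  have hms : MeasurableSet {ξ : ℂ | 1 < ‖ξ‖ ∧ ‖ξ‖ < R} :=
    (measurableSet_lt measurable_const measurable_norm).inter (measurableSet_lt measurable_norm measurable_const)
  have hd : ∀ ξ ∈ {ξ : ℂ | 1 < ‖ξ‖ ∧ ‖ξ‖ < R}, HasFDerivWithinAt (fun ξ : ℂ => ξ⁻¹)
      ((ContinuousLinearMap.toSpanSingleton ℂ (-(ξ ^ 2)⁻¹)).restrictScalars ℝ : ℂ →L[ℝ] ℂ)
      {ξ : ℂ | 1 < ‖ξ‖ ∧ ‖ξ‖ < R} ξ := by
    intro ξ hξ
    have h0 : ξ ≠ 0 := by
      rintro rfl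
      have h1 : (1 : ℝ) < ‖(0 : ℂ)‖ := hξ.1
      rw [norm_zero] at h1
      linarith
    have h1 : HasDerivAt (fun ξ : ℂ => ξ⁻¹) (-(ξ ^ 2)⁻¹) ξ := hasDerivAt_inv h0
    exact (h1.hasFDerivAt.restrictScalars ℝ).hasFDerivWithinAt
  have hinj : InjOn (fun ξ : ℂ => ξ⁻¹) {ξ : ℂ | 1 < ‖ξ‖ ∧ ‖ξ‖ < R} := fun a _ b _ h => inv_injective h
  have hdet : ∀ ξ : ℂ, |((ContinuousLinearMap.toSpanSingleton ℂ (-(ξ ^ 2)⁻¹)).restrictScalars ℝ : ℂ →L[ℝ] ℂ).det| =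
      ‖ξ‖⁻¹ ^ 4 := by
    intro ξ
    rw [EIX_det, abs_of_nonneg (by positivity), norm_neg, norm_inv, norm_pow, ← inv_pow]
    ring
  constructor
  · rw [← EIX_image R hR, integrableOn_image_iff_integrableOn_abs_det_fderiv_smul volume hms hd hinj f]
    simp only [hdet]
  · rw [← EIX_image R hR, integral_image_eq_integral_abs_det_fderiv_smul volume hms hd hinj f]
    simp only [hdet]

end

end Pool.Agent.DL
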