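import Pool.Agent.helper22.DL.SpecE2

namespace Pool.Agent.DL

open Matrix Complex MeasureTheory Set Filter Topology
open scoped ComplexOrder Manifold ContDiff ComplexConjugate

noncomputable section

/-- `v ↦ Re (c v)` -/
def EPB_L : ℂ →L[ℝ] ℂ →L[ℝ] ℝ := (ContinuousLinearMap.compL ℝ ℂ ℂ ℝ Complex.reCLM).comp (ContinuousLinearMap.mul ℝ ℂ)

theorem EPB_L_apply (c v : ℂ) : EPB_L c v = (c * v).re := rfl

theorem EPB_L_norm (c : ℂ) : ‖EPB_L c‖ ≤ ‖c‖ := by
  refine ContinuousLinearMap.opNorm_le_bound _ (norm_nonneg _) fun v => ?_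
  rw [EPB_L_apply, Real.norm_eq_abs, ← norm_mul]
  exact Complex.abs_re_le_norm _

theorem EPB_log (w : ℂ) (hw : w ≠ 0) : HasFDerivAt (fun w : ℂ => Real.log ‖w‖) (EPB_L w⁻¹) w := by
  have h1 : HasFDerivAt (fun w : ℂ => ‖w‖ ^ 2) (2 • innerSL ℝ w) w := (hasStrictFDerivAt_norm_sq w).hasFDerivAt
  have h0 : ‖w‖ ^ 2 ≠ 0 := pow_ne_zero _ (norm_ne_zero_iff.mpr hw)
  have h2 := (h1.log h0).const_mul (1 / 2 : ℝ)
  have h3 : (fun w : ℂ => (1 / 2 : ℝ) * Real.log (‖w‖ ^ 2)) = fun w : ℂ => Real.log ‖w‖ := by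
    funext w
    rw [Real.log_pow]
    push_cast
    ring
  rw [h3] at h2
  refine h2.congr_fderiv ?_
  ext v
  all_goals
    simp only [EPB_L_apply, _root_.smul_apply, innerSL_apply_apply, smul_eq_mul, nsmul_eq_mul]
    have h4 : w⁻¹ = ((‖w‖ ^ 2)⁻¹ : ℝ) * conj w := by
      rw [Complex.inv_def, Complex.normSq_eq_norm_sq, mul_comm]
    rw [h4, mul_assoc, Complex.re_ofReal_mul]
    have h5 : ∀ v : ℂ, inner ℝ w v = (conj w * v).re := fun v => by
      rw [Complex.inner, mul_comm]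
    rw [h5]
    push_cast
    ring

theorem EPB_dz {f : ℂ → ℝ} {c z : ℂ} (h : HasFDerivAt f (EPB_L c) z) : dz (fun w => (f w : ℂ)) z = c / 2 := by
  have h1 : HasFDerivAt (fun w => (f w : ℂ)) (Complex.ofRealCLM.comp (EPB_L c)) z :=
    Complex.ofRealCLM.hasFDerivAt.comp z h
  unfold dz
  rw [h1.fderiv]
  show (((c * 1).re : ℂ) - I * ((c * I).re : ℂ)) / 2 = c / 2
  congr 1
  apply Complex.ext <;> simp

theorem EPB (hEKC : EKC_stmt) (hEKD : EKD_stmt) (hERF : ERF_stmt) : EPB_stmt := by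
  intro F u h C hFi hFc hFb hh hu
  obtain ⟨-, -, hnull, hWm, -, -, -, hNs, -, -⟩ := hEKC
  obtain ⟨C0, hC0, hD1, -, ⟨hWi, -⟩, hD4⟩ := hEKD 3 (by norm_num)
  have hC : 0 ≤ C := by
    have h1 := hFb 0 (Metric.mem_ball_self (by norm_num)) (by norm_num)
    have h2 : Wt 1 0 = 1 := by simp [Wt]
    rw [h2, mul_one] at h1
    exact (abs_nonneg _).trans h1
  have hae : ∀ᵐ ξ ∂(volume.restrict (Metric.ball (0 : ℂ) 3)), |F ξ| ≤ C * Wt 1 ξ := by
    have h1 : ∀ᵐ ξ ∂(volume : Measure ℂ), ξ ^ 8 ≠ 1 := by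
      rw [ae_iff]
      simpa using hnull
    filter_upwards [ae_restrict_mem measurableSet_ball, ae_restrict_of_ae h1] with ξ h2 h3
    exact hFb ξ h2 h3
  -- integrability
  have hi1 : ∀ z ∈ Metric.ball (0 : ℂ) 3, z ^ 8 ≠ 1 → IntegrableOn (fun ξ => (F ξ : ℂ) / (z - ξ)) (Metric.ball 0 3) := by
    intro z hz hz8
    have h1 := (hD1 z hz hz8).1.const_mul C
    refine Integrable.mono h1 ?_ ?_
    · exact (Complex.continuous_ofReal.comp_aestronglyMeasurable hFi.aestronglyMeasurable).div₀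
        (measurable_const.sub measurable_id).aestronglyMeasurable
    · filter_upwards [hae] with ξ hξ
      rw [norm_div, Complex.norm_real, Real.norm_eq_abs, Real.norm_eq_abs]
      refine le_trans ?_ (le_abs_self _)
      rw [div_eq_mul_inv, ← mul_assoc]
      exact mul_le_mul_of_nonneg_right hξ (inv_nonneg.mpr (norm_nonneg _))
  have hi2 : ∀ z ∈ Metric.ball (0 : ℂ) 3, IntegrableOn (fun ξ => Real.log ‖z - ξ‖ * F ξ) (Metric.ball 0 3) := by
    intro z hz
    have h1 := (hD4 z hz).1.const_mul C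
    refine Integrable.mono h1 ?_ ?_
    · exact (Real.measurable_log.comp (measurable_norm.comp (measurable_const.sub measurable_id))).aestronglyMeasurable.mul
        hFi.aestronglyMeasurable
    · filter_upwards [hae] with ξ hξ
      rw [norm_mul, Real.norm_eq_abs, Real.norm_eq_abs, Real.norm_eq_abs]
      refine le_trans ?_ (le_abs_self _)
      rw [mul_comm, ← mul_assoc]
      exact mul_le_mul_of_nonneg_right hξ (abs_nonneg _)
  -- the derivative
  have key : ∀ z ∈ Metric.ball (0 : ℂ) 2, z ^ 8 ≠ 1 → dz (fun w => (u w : ℂ)) z =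
      TC (fun ξ => (F ξ : ℂ)) (Metric.ball 0 3) z + deriv h z / 2 := by
    intro z hz hz8
    have hz3 : z ∈ Metric.ball (0 : ℂ) 3 := Metric.ball_subset_ball (by norm_num) hz
    obtain ⟨ρ, hρ, hρs⟩ := Metric.isOpen_iff.mp (hNs.inter Metric.isOpen_ball) z ⟨hz8, hz3⟩
    have hcb : Metric.closedBall z (ρ / 2) ⊆ Ns ∩ Metric.ball 0 3 :=
      (Metric.closedBall_subset_ball (by linarith)).trans hρs
    have hb : Metric.ball z (ρ / 2) ⊆ Ns ∩ Metric.ball 0 3 := Metric.ball_subset_closedBall.trans hcb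
    obtain ⟨M, hM⟩ := (isCompact_closedBall z (ρ / 2)).exists_bound_of_continuousOn
      (hFc.mono fun w hw => (hcb hw).1)
    have hE := hERF F z (ρ / 2) M (by linarith)
      ((hFc.mono fun w hw => (hb hw).1).aestronglyMeasurable measurableSet_ball)
      (fun w hw => hM w (Metric.ball_subset_closedBall hw))
    -- the small ball
    have f1 : DifferentiableAt ℝ (TL F (Metric.ball z (ρ / 2))) z :=
      hE.1.differentiable one_ne_zero z
    -- the rest
    let S : Set ℂ := Metric.ball 0 3 \ Metric.ball z (ρ / 2)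
    have hSm : MeasurableSet S := measurableSet_ball.diff measurableSet_ball
    have hSsub : S ⊆ Metric.ball 0 3 := fun w hw => hw.1
    have hSd : ∀ ξ ∈ S, ρ / 2 ≤ ‖z - ξ‖ := by
      intro ξ hξ
      have h1 := hξ.2
      rw [Metric.mem_ball, not_lt, dist_comm, dist_eq_norm] at h1
      exact h1
    have f2 : HasFDerivAt (fun w => ∫ ξ in S, Real.log ‖w - ξ‖ * F ξ) (EPB_L (∫ ξ in S, (F ξ : ℂ) / (z - ξ))) z := by
      have g1 : EPB_L (∫ ξ in S, (F ξ : ℂ) / (z - ξ)) = ∫ ξ in S, EPB_L ((F ξ : ℂ) / (z - ξ)) :=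
        (ContinuousLinearMap.integral_comp_comm EPB_L ((hi1 z hz3 hz8).mono_set hSsub)).symm
      rw [g1]
      refine hasFDerivAt_integral_of_dominated_of_fderiv_le (F := fun w ξ => Real.log ‖w - ξ‖ * F ξ)
        (F' := fun w ξ => EPB_L ((F ξ : ℂ) / (w - ξ))) (bound := fun ξ => |F ξ| * (4 / ρ))
        (Metric.ball_mem_nhds z (show (0 : ℝ) < ρ / 4 by linarith)) ?_ ((hi2 z hz3).mono_set hSsub) ?_ ?_ ?_ ?_
      · refine Filter.Eventually.of_forall fun w => ?_
        exact (Real.measurable_log.comp (measurable_norm.comp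
          (measurable_const.sub measurable_id))).aestronglyMeasurable.mul (hFi.mono_set hSsub).aestronglyMeasurable
      · exact EPB_L.continuous.comp_aestronglyMeasurable ((hi1 z hz3 hz8).mono_set hSsub).aestronglyMeasurable
      · filter_upwards [ae_restrict_mem hSm] with ξ hξ w hw
        refine (EPB_L_norm _).trans ?_
        rw [norm_div, Complex.norm_real, Real.norm_eq_abs, div_eq_mul_inv]
        refine mul_le_mul_of_nonneg_left ?_ (abs_nonneg _)
        have h1 := hSd ξ hξ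
        have h2 : ‖z - w‖ < ρ / 4 := by
          rw [Metric.mem_ball, dist_comm, dist_eq_norm] at hw
          exact hw
        have h3 : ‖z - ξ‖ ≤ ‖z - w‖ + ‖w - ξ‖ := by
          have := norm_add_le (z - w) (w - ξ)
          rwa [sub_add_sub_cancel] at this
        have h4 : ρ / 4 ≤ ‖w - ξ‖ := by linarith
        calc ‖w - ξ‖⁻¹ ≤ (ρ / 4)⁻¹ := inv_anti₀ (by linarith) h4
          _ = 4 / ρ := by rw [inv_div]
      · exact ((hFi.mono_set hSsub).abs).mul_const _
      · filter_upwards [ae_restrict_mem hSm] with ξ hξ w hw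
        have h1 := hSd ξ hξ
        have h2 : ‖z - w‖ < ρ / 4 := by
          rw [Metric.mem_ball, dist_comm, dist_eq_norm] at hw
          exact hw
        have h3 : ‖z - ξ‖ ≤ ‖z - w‖ + ‖w - ξ‖ := by
          have := norm_add_le (z - w) (w - ξ)
          rwa [sub_add_sub_cancel] at this
        have h4 : w - ξ ≠ 0 := by
          intro h5
          rw [h5, norm_zero] at h3
          linarith
        have h5 := EPB_log (w - ξ) h4
        have h6 : HasFDerivAt (fun w : ℂ => w - ξ) (ContinuousLinearMap.id ℝ ℂ) w := (hasFDerivAt_id w).sub_const ξ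
        have h7 := (h5.comp w h6).mul_const (F ξ)
        refine h7.congr_fderiv ?_
        ext v
        all_goals
          simp only [_root_.smul_apply, ContinuousLinearMap.comp_apply, ContinuousLinearMap.id_apply,
            EPB_L_apply, smul_eq_mul]
          rw [div_eq_mul_inv, mul_assoc, Complex.re_ofReal_mul]
    -- the sum
    have hsplit : ∀ w ∈ Metric.ball (0 : ℂ) 3, TL F (Metric.ball 0 3) w = TL F (Metric.ball z (ρ / 2)) w +
        (2 / Real.pi) * (∫ ξ in S, Real.log ‖w - ξ‖ * F ξ) := by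
      intro w hw
      unfold TL
      rw [← mul_add]
      congr 1
      have hun : Metric.ball z (ρ / 2) ∪ S = Metric.ball 0 3 :=
        union_sdiff_cancel fun w hw => (hb hw).2
      rw [← hun, setIntegral_union disjoint_sdiff_right hSm]
      · exact (hi2 w hw).mono_set fun w hw => (hb hw).2
      · exact (hi2 w hw).mono_set hSsub
    have hsplit2 : TC (fun ξ => (F ξ : ℂ)) (Metric.ball 0 3) z = TC (fun ξ => (F ξ : ℂ)) (Metric.ball z (ρ / 2)) z +
        (1 / (Real.pi : ℂ)) * (∫ ξ in S, (F ξ : ℂ) / (z - ξ)) := by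
      unfold TC
      rw [← mul_add]
      congr 1
      have hun : Metric.ball z (ρ / 2) ∪ S = Metric.ball 0 3 :=
        union_sdiff_cancel fun w hw => (hb hw).2
      rw [← hun, setIntegral_union disjoint_sdiff_right hSm]
      · exact (hi1 z hz3 hz8).mono_set fun w hw => (hb hw).2
      · exact (hi1 z hz3 hz8).mono_set hSsub
    -- derivative of the real part of `h`
    have f3 : HasFDerivAt (fun w => (h w).re) (EPB_L (deriv h z)) z := by
      have k1 : DifferentiableAt ℂ h z := hh.differentiableAt (Metric.isOpen_ball.mem_nhds hz3)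
      have k2 := k1.hasDerivAt.hasFDerivAt.restrictScalars ℝ
      have k3 := Complex.reCLM.hasFDerivAt.comp z k2
      refine k3.congr_fderiv ?_
      ext v
      all_goals
        simp [EPB_L_apply]
        try ring
    -- `c1` for the small ball
    have f4 : HasFDerivAt (TL F (Metric.ball z (ρ / 2)))
        (EPB_L (2 * TC (fun ξ => (F ξ : ℂ)) (Metric.ball z (ρ / 2)) z)) z := by
      refine f1.hasFDerivAt.congr_fderiv ?_
      have h1 := hE.2 z
      have h2 : HasFDerivAt (fun w => ((TL F (Metric.ball z (ρ / 2)) w : ℝ) : ℂ))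
          (Complex.ofRealCLM.comp (fderiv ℝ (TL F (Metric.ball z (ρ / 2))) z)) z :=
        Complex.ofRealCLM.hasFDerivAt.comp z f1.hasFDerivAt
      unfold dz at h1
      rw [h2.fderiv] at h1
      have h3 : 2 * TC (fun ξ => (F ξ : ℂ)) (Metric.ball z (ρ / 2)) z =
          ((fderiv ℝ (TL F (Metric.ball z (ρ / 2))) z 1 : ℝ) : ℂ) - I * ((fderiv ℝ (TL F (Metric.ball z (ρ / 2))) z I : ℝ) : ℂ) := by
        rw [← h1]
        show _ = ((fderiv ℝ (TL F (Metric.ball z (ρ / 2))) z 1 : ℝ) : ℂ) - _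
        have : ∀ v : ℂ, (Complex.ofRealCLM.comp (fderiv ℝ (TL F (Metric.ball z (ρ / 2))) z)) v =
          ((fderiv ℝ (TL F (Metric.ball z (ρ / 2))) z v : ℝ) : ℂ) := fun _ => rfl
        rw [this, this]
        ring
      rw [h3]
      apply ContinuousLinearMap.ext
      intro v
      have h4 : v = v.re • (1 : ℂ) + v.im • I := by
        rw [Complex.real_smul, Complex.real_smul, mul_one]
        exact (Complex.re_add_im v).symm
      have h5 : fderiv ℝ (TL F (Metric.ball z (ρ / 2))) z v =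
          v.re * fderiv ℝ (TL F (Metric.ball z (ρ / 2))) z 1 + v.im * fderiv ℝ (TL F (Metric.ball z (ρ / 2))) z I := by
        conv_lhs => rw [h4]
        rw [map_add, map_smul, map_smul, smul_eq_mul, smul_eq_mul]
      rw [h5, EPB_L_apply]
      simp
      ring
    have f5 := (f4.add (f2.const_mul (2 / Real.pi))).add f3
    have f6 : u =ᶠ[𝓝 z] fun w => TL F (Metric.ball z (ρ / 2)) w + (2 / Real.pi) * (∫ ξ in S, Real.log ‖w - ξ‖ * F ξ) +
        (h w).re := by
      filter_upwards [Metric.ball_mem_nhds z (show (0 : ℝ) < ρ / 2 by linarith)] with w hw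
      have h1 := hb hw
      rw [hu w h1.2 h1.1, hsplit w h1.2]
    have f7 : HasFDerivAt u (EPB_L (2 * TC (fun ξ => (F ξ : ℂ)) (Metric.ball 0 3) z + deriv h z)) z := by
      refine (f5.congr_of_eventuallyEq f6).congr_fderiv ?_
      rw [hsplit2, mul_add, map_add, map_add]
      congr 2
      rw [← map_smul, Complex.real_smul]
      congr 1
      push_cast
      ring
    rw [EPB_dz f7]
    ring
  -- bounds
  have hdh : ContinuousOn (deriv h) (Metric.closedBall 0 2) := by
    have := (hh.deriv Metric.isOpen_ball).continuousOn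
    exact this.mono (Metric.closedBall_subset_ball (by norm_num))
  obtain ⟨M', hM'⟩ := (isCompact_closedBall (0 : ℂ) 2).exists_bound_of_continuousOn hdh
  refine ⟨C * C0 + |M'| * 257, fun z hz hz8 => ?_⟩
  rw [key z hz hz8]
  have hz3 : z ∈ Metric.ball (0 : ℂ) 3 := Metric.ball_subset_ball (by norm_num) hz
  have hmt : 0 < mt z := by
    unfold mt
    apply Real.rpow_pos_of_pos
    rw [norm_pos_iff, sub_ne_zero]
    exact fun h => hz8 h.symm
  have hmt2 : mt z ≤ 257 := by
    have h1 : ‖1 - z ^ 8‖ ≤ 257 := by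
      have h2 : ‖z‖ ≤ 2 := by
        rw [Metric.mem_ball, dist_zero_right] at hz
        exact hz.le
      calc ‖1 - z ^ 8‖ ≤ ‖(1 : ℂ)‖ + ‖z ^ 8‖ := norm_sub_le _ _
        _ = 1 + ‖z‖ ^ 8 := by rw [norm_one, norm_pow]
        _ ≤ 1 + 2 ^ 8 := by gcongr
        _ = 257 := by norm_num
    unfold mt
    calc ‖1 - z ^ 8‖ ^ (1 / 4 : ℝ) ≤ 257 ^ (1 / 4 : ℝ) :=
          Real.rpow_le_rpow (norm_nonneg _) h1 (by norm_num)
      _ ≤ 257 ^ (1 : ℝ) := Real.rpow_le_rpow_of_exponent_le (by norm_num) (by norm_num)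
      _ = 257 := Real.rpow_one _
  have h1 : ‖TC (fun ξ => (F ξ : ℂ)) (Metric.ball 0 3) z‖ ≤ C * C0 * (mt z)⁻¹ := by
    unfold TC
    rw [norm_mul, norm_div, norm_one, Complex.norm_real, Real.norm_of_nonneg Real.pi_pos.le]
    have h2 : ‖∫ ξ in Metric.ball (0 : ℂ) 3, (F ξ : ℂ) / (z - ξ)‖ ≤
        ∫ ξ in Metric.ball (0 : ℂ) 3, C * (Wt 1 ξ * ‖z - ξ‖⁻¹) := by
      refine norm_integral_le_of_norm_le ((hD1 z hz3 hz8).1.const_mul C) ?_
      filter_upwards [hae] with ξ hξ
      rw [norm_div, Complex.norm_real, Real.norm_eq_abs, div_eq_mul_inv, ← mul_assoc]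
      exact mul_le_mul_of_nonneg_right hξ (inv_nonneg.mpr (norm_nonneg _))
    rw [integral_const_mul] at h2
    have h3 := (hD1 z hz3 hz8).2.1
    have h4 : C * (∫ ξ in Metric.ball (0 : ℂ) 3, Wt 1 ξ * ‖z - ξ‖⁻¹) ≤ C * (C0 * (mt z)⁻¹) :=
      mul_le_mul_of_nonneg_left h3 hC
    have h5 : 1 / Real.pi ≤ 1 := by
      rw [div_le_one Real.pi_pos]
      have := Real.pi_gt_three
      linarith
    calc 1 / Real.pi * ‖∫ ξ in Metric.ball (0 : ℂ) 3, (F ξ : ℂ) / (z - ξ)‖ ≤
          1 * ‖∫ ξ in Metric.ball (0 : ℂ) 3, (F ξ : ℂ) / (z - ξ)‖ := mul_le_mul_of_nonneg_right h5 (norm_nonneg _)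
      _ ≤ C * C0 * (mt z)⁻¹ := by
        rw [one_mul, mul_assoc]
        exact h2.trans h4
  have h2 : ‖deriv h z / 2‖ ≤ |M'| * 257 * (mt z)⁻¹ := by
    have h3 := hM' z (Metric.ball_subset_closedBall hz)
    have h4 : 1 ≤ 257 * (mt z)⁻¹ := by
      rw [← div_eq_mul_inv, one_le_div hmt]
      exact hmt2
    rw [norm_div]
    have h5 : ‖(2 : ℂ)‖ = 2 := by simp
    rw [h5]
    have h6 : ‖deriv h z‖ ≤ |M'| := h3.trans (le_abs_self _)
    have h7 := abs_nonneg M'
    have h8 : ‖deriv h z‖ / 2 ≤ |M'| := by linarith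
    rw [mul_assoc]
    nlinarith
  calc ‖TC (fun ξ => (F ξ : ℂ)) (Metric.ball 0 3) z + deriv h z / 2‖ ≤
        ‖TC (fun ξ => (F ξ : ℂ)) (Metric.ball 0 3) z‖ + ‖deriv h z / 2‖ := norm_add_le _ _
    _ ≤ C * C0 * (mt z)⁻¹ + |M'| * 257 * (mt z)⁻¹ := add_le_add h1 h2
    _ = (C * C0 + |M'| * 257) * (mt z)⁻¹ := by ring

end

end Pool.Agent.DL
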