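import Pool.Agent.helper22.DL.SpecE1

namespace Pool.Agent.DL

open Matrix Complex MeasureTheory Set Filter Topology
open scoped ComplexOrder Manifold ContDiff ComplexConjugate Convolution

noncomputable section

theorem ERE_int (hEKA : EKA_stmt) (z : ℂ) (R : ℝ) (hR : 0 < R) : IntegrableOn (fun ξ : ℂ => (z - ξ)⁻¹) (Metric.ball 0 R) := by
  obtain ⟨C, hC⟩ := hEKA 1 R (by norm_num) (by norm_num) hR
  have h1 := (hC z).1
  refine Integrable.mono h1 ?_ ?_
  · exact (Measurable.inv (measurable_const.sub measurable_id)).aestronglyMeasurable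
  · refine Filter.Eventually.of_forall fun ξ => ?_
    rw [norm_inv, Real.norm_of_nonneg (Real.rpow_nonneg (norm_nonneg _) _), Real.rpow_neg_one]

theorem ERE_loc (hEKA : EKA_stmt) : LocallyIntegrable (fun t : ℂ => t⁻¹) volume := by
  intro x
  have h1 := ERE_int hEKA 0 (‖x‖ + 1) (by positivity)
  refine ⟨Metric.ball 0 (‖x‖ + 1), Metric.isOpen_ball.mem_nhds ?_, ?_⟩
  · rw [Metric.mem_ball, dist_zero_right]
    linarith
  · have h2 : (fun ξ : ℂ => ((0 : ℂ) - ξ)⁻¹) = fun ξ : ℂ => -ξ⁻¹ := by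
      funext ξ
      rw [zero_sub, inv_neg]
    rw [h2] at h1
    have h3 := h1.neg
    simpa using h3

theorem ERE_conv (g : ℂ → ℂ) (z : ℂ) : ((fun t : ℂ => t⁻¹) ⋆[ContinuousLinearMap.mul ℝ ℂ, volume] g) z =
    ∫ ξ, g ξ / (z - ξ) := by
  rw [convolution_eq_swap]
  refine integral_congr_ae (Filter.Eventually.of_forall fun ξ => ?_)
  show (z - ξ)⁻¹ * g ξ = g ξ / (z - ξ)
  rw [div_eq_mul_inv, mul_comm]

theorem ERE_integrable (hEKA : EKA_stmt) {g : ℂ → ℂ} (hcg : HasCompactSupport g) (hg : Continuous g) (z : ℂ) :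
    Integrable (fun ξ => g ξ / (z - ξ)) := by
  have h1 := hcg.convolutionExists_right (ContinuousLinearMap.mul ℝ ℂ) (ERE_loc hEKA) hg z
  have h2 : Integrable (fun t : ℂ => t⁻¹ * g (z - t)) := h1
  have h3 := (h2.comp_sub_left z)
  refine h3.congr (Filter.Eventually.of_forall fun ξ => ?_)
  show (z - ξ)⁻¹ * g (z - (z - ξ)) = g ξ / (z - ξ)
  rw [sub_sub_cancel, div_eq_mul_inv, mul_comm]

theorem ERE (hEKA : EKA_stmt) (hERA : ERA_stmt) : ERE_stmt := by
  intro φ z₀ ρ ρ' M hρ' hρ hφ hM v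
  -- the cut-off
  let χ : ContDiffBump z₀ := ⟨ρ' + (ρ - ρ') / 3, ρ' + 2 * (ρ - ρ') / 3, by linarith, by linarith⟩
  have hin : χ.rIn = ρ' + (ρ - ρ') / 3 := rfl
  have hout : χ.rOut = ρ' + 2 * (ρ - ρ') / 3 := rfl
  let φ₁ : ℂ → ℂ := fun ξ => ((χ ξ : ℝ) : ℂ) * φ ξ
  have hχs : HasCompactSupport (fun ξ => ((χ ξ : ℝ) : ℂ)) := by
    have := χ.hasCompactSupport
    exact this.comp_left (g := fun t : ℝ => (t : ℂ)) Complex.ofReal_zero
  have hcs : HasCompactSupport φ₁ := hχs.mul_right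
  have h0 : ∀ ξ, ξ ∉ Metric.closedBall z₀ χ.rOut → φ₁ ξ = 0 := by
    intro ξ hξ
    have h1 : χ ξ = 0 := by
      apply χ.zero_of_le_dist
      rw [Metric.mem_closedBall] at hξ
      linarith
    show ((χ ξ : ℝ) : ℂ) * φ ξ = 0
    rw [h1, Complex.ofReal_zero, zero_mul]
  have h1e : ∀ ξ ∈ Metric.closedBall z₀ χ.rIn, φ₁ ξ = φ ξ := by
    intro ξ hξ
    show ((χ ξ : ℝ) : ℂ) * φ ξ = φ ξ
    rw [χ.one_of_mem_closedBall hξ, Complex.ofReal_one, one_mul]
  have hC1 : ContDiff ℝ 1 φ₁ := by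
    rw [contDiff_iff_contDiffAt]
    intro ξ
    by_cases hξ : ξ ∈ Metric.ball z₀ ρ
    · have h2 : ContDiffAt ℝ 1 φ ξ := hφ.contDiffAt (Metric.isOpen_ball.mem_nhds hξ)
      have h3 : ContDiffAt ℝ 1 (fun ξ => ((χ ξ : ℝ) : ℂ)) ξ :=
        (Complex.ofRealCLM.contDiff.of_le le_top).contDiffAt.comp ξ (χ.contDiffAt)
      exact h3.mul h2
    · have h2 : φ₁ =ᶠ[𝓝 ξ] fun _ => 0 := by
        have h3 : (Metric.closedBall z₀ χ.rOut)ᶜ ∈ 𝓝 ξ := by
          apply Metric.isClosed_closedBall.isOpen_compl.mem_nhds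
          intro h4
          apply hξ
          rw [Metric.mem_closedBall] at h4
          rw [Metric.mem_ball]
          rw [hout] at h4
          linarith
        filter_upwards [h3] with η hη
        exact h0 η hη
      exact contDiffAt_const.congr_of_eventuallyEq h2
  have hcont : Continuous φ₁ := hC1.continuous
  let D : ℂ → ℂ := fun ξ => fderiv ℝ φ₁ ξ v
  have hDc : Continuous D := (hC1.continuous_fderiv one_ne_zero).clm_apply continuous_const
  have hDs : HasCompactSupport D := by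
    have := hcs.fderiv ℝ
    exact this.comp_left (g := fun A : ℂ →L[ℝ] ℂ => A v) (by simp)
  -- decomposition of `TC φ`
  let S₂ : Set ℂ := Metric.ball z₀ ρ \ Metric.ball z₀ ρ'
  let h₂ : ℂ → ℂ := TC (fun ξ => φ ξ - φ₁ ξ) S₂
  have hSm : MeasurableSet S₂ := measurableSet_ball.diff measurableSet_ball
  have hφm : AEStronglyMeasurable φ (volume.restrict (Metric.ball z₀ ρ)) :=
    hφ.continuousOn.aestronglyMeasurable measurableSet_ball
  have hφi : IntegrableOn φ (Metric.ball z₀ ρ) := by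
    refine IntegrableOn.of_bound measure_ball_lt_top hφm M ?_
    filter_upwards [ae_restrict_mem measurableSet_ball] with ξ hξ
    exact hM ξ hξ
  have hsub : IntegrableOn (fun ξ => φ ξ - φ₁ ξ) S₂ := by
    have h2 : IntegrableOn φ₁ (Metric.ball z₀ ρ) := (hcont.integrable_of_hasCompactSupport hcs).integrableOn
    exact (hφi.sub h2).mono_set sdiff_subset
  have hh₂ : DifferentiableOn ℂ h₂ (Metric.ball z₀ ρ') :=
    hERA _ S₂ _ hSm hsub Metric.isOpen_ball (disjoint_sdiff_right)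
  have hdec : ∀ z ∈ Metric.ball z₀ ρ', TC φ (Metric.ball z₀ ρ) z =
      (1 / (Real.pi : ℂ)) * ((fun t : ℂ => t⁻¹) ⋆[ContinuousLinearMap.mul ℝ ℂ, volume] φ₁) z + h₂ z := by
    intro z hz
    rw [ERE_conv]
    show (1 / (Real.pi : ℂ)) * (∫ ξ in Metric.ball z₀ ρ, φ ξ / (z - ξ)) = (1 / (Real.pi : ℂ)) * (∫ ξ, φ₁ ξ / (z - ξ)) +
      (1 / (Real.pi : ℂ)) * (∫ ξ in S₂, (φ ξ - φ₁ ξ) / (z - ξ))
    rw [← mul_add]
    congr 1
    have e1 : ∫ ξ, φ₁ ξ / (z - ξ) = ∫ ξ in Metric.ball z₀ ρ, φ₁ ξ / (z - ξ) := by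
      symm
      apply setIntegral_eq_integral_of_forall_compl_eq_zero
      intro ξ hξ
      rw [h0 ξ, zero_div]
      intro h4
      apply hξ
      rw [Metric.mem_closedBall] at h4
      rw [Metric.mem_ball]
      rw [hout] at h4
      linarith
    have e2 : ∫ ξ in S₂, (φ ξ - φ₁ ξ) / (z - ξ) = ∫ ξ in Metric.ball z₀ ρ, (φ ξ - φ₁ ξ) / (z - ξ) := by
      symm
      apply setIntegral_eq_of_subset_of_forall_sdiff_eq_zero measurableSet_ball sdiff_subset
      intro ξ hξ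
      have h4 : ξ ∈ Metric.ball z₀ ρ' := by
        by_contra h5
        exact hξ.2 ⟨hξ.1, h5⟩
      have h5 : ξ ∈ Metric.closedBall z₀ χ.rIn := by
        rw [Metric.mem_ball] at h4
        rw [Metric.mem_closedBall, hin]
        linarith
      rw [h1e ξ h5, sub_self, zero_div]
    have i1 : IntegrableOn (fun ξ => φ₁ ξ / (z - ξ)) (Metric.ball z₀ ρ) :=
      (ERE_integrable hEKA hcs hcont z).integrableOn
    have i2 : IntegrableOn (fun ξ => φ ξ / (z - ξ)) (Metric.ball z₀ ρ) := by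
      have k1 : IntegrableOn (fun ξ : ℂ => (z - ξ)⁻¹) (Metric.ball z₀ ρ) := by
        refine (ERE_int hEKA z (‖z₀‖ + ρ) (by have := norm_nonneg z₀; linarith)).mono_set ?_
        intro ξ hξ
        rw [Metric.mem_ball] at hξ ⊢
        calc dist ξ 0 ≤ dist ξ z₀ + dist z₀ 0 := dist_triangle _ _ _
          _ < ‖z₀‖ + ρ := by rw [dist_zero_right]; linarith
      have k2 : IntegrableOn (fun ξ => φ ξ * (z - ξ)⁻¹) (Metric.ball z₀ ρ) :=
        Integrable.bdd_mul k1 hφm (c := M) (by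
          filter_upwards [ae_restrict_mem measurableSet_ball] with ξ hξ
          exact hM ξ hξ)
      exact k2
    rw [e1, e2, ← integral_add i1 (by
      have := i2.sub i1
      refine this.congr (Filter.Eventually.of_forall fun ξ => ?_)
      show φ ξ / (z - ξ) - φ₁ ξ / (z - ξ) = (φ ξ - φ₁ ξ) / (z - ξ)
      rw [sub_div])]
    refine integral_congr_ae (Filter.Eventually.of_forall fun ξ => ?_)
    show φ ξ / (z - ξ) = φ₁ ξ / (z - ξ) + (φ ξ - φ₁ ξ) / (z - ξ)
    rw [← add_div, add_sub_cancel]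
  -- the holomorphic part of the derivative
  refine ⟨fun z => TC D (Metric.ball z₀ ρ')ᶜ z + v * deriv h₂ z, ?_, ?_⟩
  · refine DifferentiableOn.add ?_ (DifferentiableOn.const_mul (hh₂.deriv Metric.isOpen_ball) v)
    exact hERA D _ _ measurableSet_ball.compl (hDc.integrable_of_hasCompactSupport hDs).integrableOn Metric.isOpen_ball
      disjoint_compl_right
  · intro z hz
    have f1 := hcs.hasFDerivAt_convolution_right (ContinuousLinearMap.mul ℝ ℂ) (ERE_loc hEKA) hC1 z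
    have f2 := f1.const_mul (1 / (Real.pi : ℂ))
    have f3 : HasFDerivAt h₂ ((ContinuousLinearMap.toSpanSingleton ℂ (deriv h₂ z)).restrictScalars ℝ : ℂ →L[ℝ] ℂ) z := by
      have k1 : DifferentiableAt ℂ h₂ z := hh₂.differentiableAt (Metric.isOpen_ball.mem_nhds hz)
      exact k1.hasDerivAt.hasFDerivAt.restrictScalars ℝ
    have f4 := f2.add f3
    have f5 : (TC φ (Metric.ball z₀ ρ)) =ᶠ[𝓝 z] fun w => (1 / (Real.pi : ℂ)) *
        ((fun t : ℂ => t⁻¹) ⋆[ContinuousLinearMap.mul ℝ ℂ, volume] φ₁) w + h₂ w := by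
      filter_upwards [Metric.isOpen_ball.mem_nhds hz] with w hw
      exact hdec w hw
    have f6 := f4.congr_of_eventuallyEq f5
    rw [f6.fderiv]
    have e3 : ((fun t : ℂ => t⁻¹) ⋆[(ContinuousLinearMap.mul ℝ ℂ).precompR ℂ, volume] fderiv ℝ φ₁) z v =
        ∫ ξ, D ξ / (z - ξ) := by
      rw [convolution_precompR_apply _ (ERE_loc hEKA) (hcs.fderiv ℝ) (hC1.continuous_fderiv one_ne_zero)]
      exact ERE_conv D z
    show (1 / (Real.pi : ℂ)) * (((fun t : ℂ => t⁻¹) ⋆[(ContinuousLinearMap.mul ℝ ℂ).precompR ℂ, volume] fderiv ℝ φ₁) z v) +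
      v * deriv h₂ z = TC (fun ξ => fderiv ℝ φ ξ v) (Metric.ball z₀ ρ') z + (TC D (Metric.ball z₀ ρ')ᶜ z + v * deriv h₂ z)
    rw [e3, ← add_assoc]
    congr 1
    show _ = (1 / (Real.pi : ℂ)) * (∫ ξ in Metric.ball z₀ ρ', fderiv ℝ φ ξ v / (z - ξ)) +
      (1 / (Real.pi : ℂ)) * ∫ ξ in (Metric.ball z₀ ρ')ᶜ, D ξ / (z - ξ)
    rw [← mul_add]
    congr 1
    rw [← integral_add_compl measurableSet_ball (ERE_integrable hEKA hDs hDc z)]
    congr 1
    refine setIntegral_congr_fun measurableSet_ball fun ξ hξ => ?_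
    show fderiv ℝ φ₁ ξ v / (z - ξ) = fderiv ℝ φ ξ v / (z - ξ)
    have e4 : φ₁ =ᶠ[𝓝 ξ] φ := by
      filter_upwards [Metric.isOpen_ball.mem_nhds hξ] with η hη
      apply h1e
      rw [Metric.mem_ball] at hη
      rw [Metric.mem_closedBall, hin]
      linarith
    rw [e4.fderiv_eq]

end

end Pool.Agent.DL
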