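import Pool.Agent.helper67.DL.SpecX

namespace Pool.Agent.DL

open Matrix Complex Topology Filter
open scoped ComplexOrder Manifold ContDiff

noncomputable section

theorem X16_ev (e : OpenPartialHomeomorph XT ℂ) {x : XT} (hx : x ∈ e.source) {U : Set XT} (hU : IsOpen U)
    (hxU : x ∈ U) : ∀ᶠ z in 𝓝 (e x), e.symm z ∈ U :=
  (e.tendsto_symm hx).eventually (hU.mem_nhds hxU)

theorem X16_da [ChartedSpace ℂ XT] {f : XT → ℂ} {U : Set XT} (hf : HoloOn f U) (hU : IsOpen U)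
    {e : OpenPartialHomeomorph XT ℂ} (he : e ∈ atlas ℂ XT) {x : XT} (hx : x ∈ e.source) (hxU : x ∈ U) :
    DifferentiableAt ℂ (fun z => f (e.symm z)) (e x) := by
  refine (hf e he).differentiableAt ((e.isOpen_inter_preimage_symm hU).mem_nhds ⟨e.map_source hx, ?_⟩)
  show e.symm (e x) ∈ U
  rw [e.left_inv hx]
  exact hxU

theorem X16_cases (p : XT) :
    (∃ z y : ℂ, p.1.1 = OnePoint.some z ∧ p.1.2 = OnePoint.some y ∧ fN p = z⁻¹ ∧ fY p = y ∧ fV p = y⁻¹ ∧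
      (1 + z ^ 4) * (1 + y ^ 2) = 2) ∨
    (∃ y : ℂ, p.1.1 = OnePoint.infty ∧ p.1.2 = OnePoint.some y ∧ fN p = 0 ∧ fY p = y ∧ fV p = y⁻¹ ∧ 1 + y ^ 2 = 0) ∨
    (∃ z : ℂ, p.1.1 = OnePoint.some z ∧ p.1.2 = OnePoint.infty ∧ fN p = z⁻¹ ∧ fY p = 0 ∧ fV p = 0 ∧ 1 + z ^ 4 = 0) := by
  rcases p with ⟨⟨a, b⟩, h⟩
  rcases h with ⟨z, y, hp, h⟩ | ⟨y, hp, h⟩ | ⟨z, hp, h⟩
  · obtain ⟨rfl, rfl⟩ := Prod.mk.inj hp
    exact Or.inl ⟨z, y, rfl, rfl, rfl, rfl, rfl, h⟩
  · obtain ⟨rfl, rfl⟩ := Prod.mk.inj hp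
    exact Or.inr (Or.inl ⟨y, rfl, rfl, rfl, rfl, rfl, h⟩)
  · obtain ⟨rfl, rfl⟩ := Prod.mk.inj hp
    exact Or.inr (Or.inr ⟨z, rfl, rfl, rfl, rfl, rfl, h⟩)

theorem X16_rel (p : XT) (h1 : p ∈ uN) (h2 : p ∈ uY) : (1 + fN p ^ 4) * (1 + fY p ^ 2) = 2 * fN p ^ 4 := by
  rcases X16_cases p with ⟨z, y, hz, hy, hN, hY, hV, h⟩ | ⟨y, hz, hy, hN, hY, hV, h⟩ | ⟨z, hz, hy, hN, hY, hV, h⟩
  · have hz0 : z ≠ 0 := by
      rintro rfl
      exact h1 hz
    rw [hN, hY]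
    field_simp
    linear_combination h
  · rw [hN, hY, h]
    ring
  · exact absurd hy h2

theorem X16_vy (p : XT) (h1 : p ∈ uV) (h2 : p ∈ uY) : fV p * fY p = 1 ∧ fY p ≠ 0 := by
  rcases X16_cases p with ⟨z, y, hz, hy, hN, hY, hV, h⟩ | ⟨y, hz, hy, hN, hY, hV, h⟩ | ⟨z, hz, hy, hN, hY, hV, h⟩
  · have hy0 : y ≠ 0 := by
      rintro rfl
      exact h1 hy
    rw [hV, hY]
    exact ⟨inv_mul_cancel₀ hy0, hy0⟩
  · have hy0 : y ≠ 0 := by
      rintro rfl
      exact h1 hy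
    rw [hV, hY]
    exact ⟨inv_mul_cancel₀ hy0, hy0⟩
  · exact absurd hy h2

theorem X16_n4 (p : XT) (h1 : p ∈ uN) (h2 : p ∈ uY) : 1 + fN p ^ 4 ≠ 0 := by
  intro h0
  have h := X16_rel p h1 h2
  rw [h0, zero_mul] at h
  have h3 : fN p ^ 4 = 0 := by
    have := h.symm
    simpa using this
  rw [h3] at h0
  norm_num at h0

theorem X16_y2 (p : XT) (h1 : p ∈ uZ) (h2 : p ∈ uY) : 1 + fY p ^ 2 ≠ 0 := by
  rcases X16_cases p with ⟨z, y, hz, hy, hN, hY, hV, h⟩ | ⟨y, hz, hy, hN, hY, hV, h⟩ | ⟨z, hz, hy, hN, hY, hV, h⟩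
  · rw [hY]
    intro h0
    rw [h0, mul_zero] at h
    norm_num at h
  · exact absurd hz h1
  · exact absurd hy h2

theorem X16_v2 (p : XT) (h1 : p ∈ uZ) (h2 : p ∈ uV) : 1 + fV p ^ 2 ≠ 0 := by
  rcases X16_cases p with ⟨z, y, hz, hy, hN, hY, hV, h⟩ | ⟨y, hz, hy, hN, hY, hV, h⟩ | ⟨z, hz, hy, hN, hY, hV, h⟩
  · have hy0 : y ≠ 0 := by
      rintro rfl
      exact h2 hy
    rw [hV]
    intro h0
    have h3 : 1 + y ^ 2 = 0 := by
      field_simp at h0
      linear_combination h0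
    rw [h3, mul_zero] at h
    norm_num at h
  · exact absurd hz h1
  · rw [hV]
    norm_num

/-- Relation of the differentials of `ν` and `Y`. -/
theorem X16_dNY [ChartedSpace ℂ XT] (H : HolX) {e : OpenPartialHomeomorph XT ℂ} (he : e ∈ atlas ℂ XT) {x : XT}
    (hx : x ∈ e.source) (hN : x ∈ uN) (hY : x ∈ uY) (hV : x ∈ uV) (hZ : x ∈ uZ) :
    -dd fN e x / ((1 + fN x ^ 4) * fY x) = -(fN x * dd fY e x) / (2 * (1 + fY x ^ 2)) := by
  have dN := (X16_da H.hN H.oN he hx hN).hasDerivAt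
  have dY := (X16_da H.hY H.oY he hx hY).hasDerivAt
  have hl : e.symm (e x) = x := e.left_inv hx
  have e1 : ∀ᶠ z in 𝓝 (e x), (1 + fN (e.symm z) ^ 4) * (1 + fY (e.symm z) ^ 2) = 2 * fN (e.symm z) ^ 4 := by
    filter_upwards [X16_ev e hx H.oN hN, X16_ev e hx H.oY hY] with z h1 h2
    exact X16_rel _ h1 h2
  have l := ((dN.pow 4).const_add (1 : ℂ)).mul ((dY.pow 2).const_add (1 : ℂ))
  have r := (dN.pow 4).const_mul (2 : ℂ)
  have e2 : (fun z => (1 + fN (e.symm z) ^ 4) * (1 + fY (e.symm z) ^ 2)) =ᶠ[𝓝 (e x)]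
      fun z => 2 * fN (e.symm z) ^ 4 := e1
  have e3 := l.unique (r.congr_of_eventuallyEq e2)
  have hrel := X16_rel x hN hY
  have n1 := X16_n4 x hN hY
  have n2 := X16_y2 x hZ hY
  have n3 := (X16_vy x hV hY).2
  have a1 : dd fN e x = deriv (fun z => fN (e.symm z)) (e x) := rfl
  have a2 : dd fY e x = deriv (fun z => fY (e.symm z)) (e x) := rfl
  rw [← a1, ← a2] at e3
  simp only [Pi.pow_apply, hl] at e3
  rw [div_eq_div_iff (mul_ne_zero n1 n3) (mul_ne_zero two_ne_zero n2)]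
  push_cast at e3
  have h4 : fN x ^ 4 * (1 - fY x ^ 2) = 1 + fY x ^ 2 := by linear_combination -hrel
  linear_combination (fN x / 2) * e3 + 2 * dd fN e x * h4

/-- Relation of the differentials of `V` and `Y`. -/
theorem X16_dVY [ChartedSpace ℂ XT] (H : HolX) {e : OpenPartialHomeomorph XT ℂ} (he : e ∈ atlas ℂ XT) {x : XT}
    (hx : x ∈ e.source) (hY : x ∈ uY) (hV : x ∈ uV) : dd fV e x * fY x + fV x * dd fY e x = 0 := by
  have dV := (X16_da H.hV H.oV he hx hV).hasDerivAt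
  have dY := (X16_da H.hY H.oY he hx hY).hasDerivAt
  have hl : e.symm (e x) = x := e.left_inv hx
  have e1 : ∀ᶠ z in 𝓝 (e x), fV (e.symm z) * fY (e.symm z) = 1 := by
    filter_upwards [X16_ev e hx H.oV hV, X16_ev e hx H.oY hY] with z h1 h2
    exact (X16_vy _ h1 h2).1
  have l := dV.mul dY
  have e2 : (fun z => fV (e.symm z) * fY (e.symm z)) =ᶠ[𝓝 (e x)] fun _ => (1 : ℂ) := e1
  have e3 := l.unique ((hasDerivAt_const (e x) (1 : ℂ)).congr_of_eventuallyEq e2)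
  simp only [hl] at e3
  exact e3

theorem X16 (h13 : X13_stmt) (h14 : X14_stmt) : X16_stmt := by
  intro cs H
  obtain ⟨hmul, -, hres, hinv, hadd, hconst, hglue⟩ := h14 XT
  have D := h13 XT H.man
  -- restrictions
  have hUA : IsOpen (uN ∩ uY ∩ uV) := (H.oN.inter H.oY).inter H.oV
  have hUB : IsOpen (uZ ∩ uN ∩ uY) := (H.oZ.inter H.oN).inter H.oY
  have hUC : IsOpen (uZ ∩ uN ∩ uV) := (H.oZ.inter H.oN).inter H.oV
  have hN4 : HoloOn (fun x => 1 + fN x ^ 4) uN := by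
    have h2 := (hadd _ _ _ H.hN H.hN).1
    have h4 := (hadd _ _ _ h2 h2).1
    have h5 := (hadd _ _ _ (hconst uN 1) h4).2
    have : (fun x => 1 + fN x ^ 4) = fun x => (1 : ℂ) + fN x * fN x * (fN x * fN x) := by
      funext x
      ring
    rw [this]
    exact h5
  have hY2 : HoloOn (fun x => 2 * (1 + fY x ^ 2)) uY := by
    have h2 := (hadd _ _ _ H.hY H.hY).1
    have h5 := (hadd _ _ _ (hconst uY 1) h2).2
    have h6 := (hadd _ _ _ (hconst uY 2) h5).1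
    have : (fun x => 2 * (1 + fY x ^ 2)) = fun x => (2 : ℂ) * (1 + fY x * fY x) := by
      funext x
      ring
    rw [this]
    exact h6
  have hV2 : HoloOn (fun x => 2 * (1 + fV x ^ 2)) uV := by
    have h2 := (hadd _ _ _ H.hV H.hV).1
    have h5 := (hadd _ _ _ (hconst uV 1) h2).2
    have h6 := (hadd _ _ _ (hconst uV 2) h5).1
    have : (fun x => 2 * (1 + fV x ^ 2)) = fun x => (2 : ℂ) * (1 + fV x * fV x) := by
      funext x
      ring
    rw [this]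
    exact h6
  have sAN : uN ∩ uY ∩ uV ⊆ uN := fun x hx => hx.1.1
  have sAY : uN ∩ uY ∩ uV ⊆ uY := fun x hx => hx.1.2
  have sBN : uZ ∩ uN ∩ uY ⊆ uN := fun x hx => hx.1.2
  have sBY : uZ ∩ uN ∩ uY ⊆ uY := fun x hx => hx.2
  have sCN : uZ ∩ uN ∩ uV ⊆ uN := fun x hx => hx.1.2
  have sCV : uZ ∩ uN ∩ uV ⊆ uV := fun x hx => hx.2
  -- the local forms
  have fA : IsDif (uN ∩ uY ∩ uV) 1 (fun e x => (-1 * ((1 + fN x ^ 4) * fY x)⁻¹) * dd fN e x) := by
    refine hmul _ _ _ _ hUA ?_ (D _ _ hUA (hres _ _ _ sAN H.hN))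
    refine (hadd _ _ _ (hconst _ (-1)) (hinv _ _ hUA ((hadd _ _ _ (hres _ _ _ sAN hN4) (hres _ _ _ sAY H.hY)).1) ?_)).1
    intro x hx
    exact mul_ne_zero (X16_n4 x hx.1.1 hx.1.2) (X16_vy x hx.2 hx.1.2).2
  have fB : IsDif (uZ ∩ uN ∩ uY) 1 (fun e x => (-1 * (fN x * (2 * (1 + fY x ^ 2))⁻¹)) * dd fY e x) := by
    refine hmul _ _ _ _ hUB ?_ (D _ _ hUB (hres _ _ _ sBY H.hY))
    refine (hadd _ _ _ (hconst _ (-1)) ((hadd _ _ _ (hres _ _ _ sBN H.hN) (hinv _ _ hUB (hres _ _ _ sBY hY2) ?_)).1)).1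
    intro x hx
    exact mul_ne_zero two_ne_zero (X16_y2 x hx.1.1 hx.2)
  have fC : IsDif (uZ ∩ uN ∩ uV) 1 (fun e x => (fN x * (2 * (1 + fV x ^ 2))⁻¹) * dd fV e x) := by
    refine hmul _ _ _ _ hUC ?_ (D _ _ hUC (hres _ _ _ sCV H.hV))
    refine (hadd _ _ _ (hres _ _ _ sCN H.hN) (hinv _ _ hUC (hres _ _ _ sCV hV2) ?_)).1
    intro x hx
    exact mul_ne_zero two_ne_zero (X16_v2 x hx.1.1 hx.2)
  -- gluing
  let U : Fin 3 → Set XT := ![uN ∩ uY ∩ uV, uZ ∩ uN ∩ uY, uZ ∩ uN ∩ uV]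
  let q' : Fin 3 → Fam XT := ![fun e x => (-1 * ((1 + fN x ^ 4) * fY x)⁻¹) * dd fN e x,
    fun e x => (-1 * (fN x * (2 * (1 + fY x ^ 2))⁻¹)) * dd fY e x,
    fun e x => (fN x * (2 * (1 + fV x ^ 2))⁻¹) * dd fV e x]
  have hcov : (⋃ i, U i) = uN := by
    ext p
    simp only [Set.mem_iUnion]
    constructor
    · rintro ⟨i, hi⟩
      fin_cases i
      · exact hi.1.1
      · exact hi.1.2
      · exact hi.1.2
    · intro hp
      by_cases h1 : p.1.1 = OnePoint.infty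
      · refine ⟨0, ⟨hp, ?_⟩, ?_⟩
        · rcases X16_cases p with ⟨z, y, hz, hy, -⟩ | ⟨y, hz, hy, -⟩ | ⟨z, hz, hy, -⟩
          · show p.1.2 ≠ OnePoint.infty
            rw [hy]
            exact OnePoint.coe_ne_infty y
          · show p.1.2 ≠ OnePoint.infty
            rw [hy]
            exact OnePoint.coe_ne_infty y
          · rw [hz] at h1
            exact absurd h1 (OnePoint.coe_ne_infty z)
        · rcases X16_cases p with ⟨z, y, hz, hy, -⟩ | ⟨y, hz, hy, -, -, -, h⟩ | ⟨z, hz, hy, -⟩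
          · rw [hz] at h1
            exact absurd h1 (OnePoint.coe_ne_infty z)
          · show p.1.2 ≠ OnePoint.some 0
            rw [hy]
            intro h0
            rw [OnePoint.coe_injective h0] at h
            norm_num at h
          · rw [hz] at h1
            exact absurd h1 (OnePoint.coe_ne_infty z)
      · by_cases h2 : p.1.2 = OnePoint.infty
        · refine ⟨2, ⟨h1, hp⟩, ?_⟩
          show p.1.2 ≠ OnePoint.some 0
          rw [h2]
          exact OnePoint.infty_ne_coe 0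
        · exact ⟨1, ⟨h1, hp⟩, h2⟩
  rw [← hcov]
  refine hglue (Fin 3) U 1 eta1 q' ?_ ?_ ?_
  · intro i
    fin_cases i
    · exact hUA
    · exact hUB
    · exact hUC
  · intro i
    fin_cases i
    · exact fA
    · exact fB
    · exact fC
  · intro i e he x hxU hx
    fin_cases i
    · -- third formula
      obtain ⟨⟨xN, xY⟩, xV⟩ := hxU
      show eta1 e x = (-1 * ((1 + fN x ^ 4) * fY x)⁻¹) * dd fN e x
      rw [eta1, if_neg xY, if_neg xV]
      ring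
    · obtain ⟨⟨xZ, xN⟩, xY⟩ := hxU
      show eta1 e x = (-1 * (fN x * (2 * (1 + fY x ^ 2))⁻¹)) * dd fY e x
      have e0 : (-1 * (fN x * (2 * (1 + fY x ^ 2))⁻¹)) * dd fY e x = -(fN x * dd fY e x) / (2 * (1 + fY x ^ 2)) := by
        ring
      rw [e0, eta1, if_neg xY]
      by_cases xV : x.1.2 = OnePoint.some 0
      · rw [if_pos xV]
      · rw [if_neg xV]
        exact X16_dNY H he hx xN xY xV xZ
    · obtain ⟨⟨xZ, xN⟩, xV⟩ := hxU
      show eta1 e x = (fN x * (2 * (1 + fV x ^ 2))⁻¹) * dd fV e x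
      rw [eta1]
      by_cases xY : x.1.2 = OnePoint.infty
      · rw [if_pos xY]
        ring
      · rw [if_neg xY, if_neg xV, X16_dNY H he hx xN xY xV xZ]
        have h1 := X16_dVY H he hx xY xV
        have h2 := X16_vy x xV xY
        have n1 := X16_y2 x xZ xY
        have n2 := X16_v2 x xZ xV
        have hVe : fV x = (fY x)⁻¹ := eq_inv_of_mul_eq_one_left h2.1
        have hd : dd fY e x = -(dd fV e x * fY x ^ 2) := by
          have h3 : fV x * dd fY e x * fY x = -(dd fV e x * fY x) * fY x := by linear_combination h1 * fY x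
          have h4 : fV x * dd fY e x * fY x = dd fY e x := by
            rw [mul_right_comm, h2.1, one_mul]
          rw [← h4, h3]
          ring
        rw [hd, hVe]
        have n4 := h2.2
        have n5 : 2 * (1 + ((fY x)⁻¹) ^ 2) = 2 * (1 + fY x ^ 2) / fY x ^ 2 := by
          field_simp
          ring
        have n6 : (2 * (1 + fY x ^ 2)) ≠ 0 := mul_ne_zero two_ne_zero n1
        rw [n5, div_eq_iff n6, inv_div]
        generalize 2 * (1 + fY x ^ 2) = w at n6 ⊢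
        field_simp

end

end Pool.Agent.DL
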