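import Pool.Agent.helper67.DL.SpecX

namespace Pool.Agent.DL

open Matrix Complex Topology Filter
open scoped ComplexOrder Manifold ContDiff

noncomputable section

theorem X20_da [ChartedSpace ℂ XT] {f : XT → ℂ} {U : Set XT} (hf : HoloOn f U) (hU : IsOpen U)
    {e : OpenPartialHomeomorph XT ℂ} (he : e ∈ atlas ℂ XT) {x : XT} (hx : x ∈ e.source) (hxU : x ∈ U) :
    DifferentiableAt ℂ (fun z => f (e.symm z)) (e x) := by
  refine (hf e he).differentiableAt ((e.isOpen_inter_preimage_symm hU).mem_nhds ⟨e.map_source hx, ?_⟩)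
  show e.symm (e x) ∈ U
  rw [e.left_inv hx]
  exact hxU

theorem X20_pull [ChartedSpace ℂ XT] (hc : Continuous tauX) {f : XT → ℂ} {U : Set XT} (hU : IsOpen U)
    (hf : HoloOn f U) (s : ℂ) (hs : ∀ x, f (tauX x) = s * f x) (hτ : ∀ x, tauX x ∈ U ↔ x ∈ U)
    (ht : ∀ e ∈ atlas ℂ XT, ∀ e' ∈ atlas ℂ XT,
      DifferentiableOn ℂ (fun z => e' (tauX (e.symm z))) (e.target ∩ e.symm ⁻¹' (tauX ⁻¹' e'.source)))
    {e e' : OpenPartialHomeomorph XT ℂ} (he : e ∈ atlas ℂ XT) (he' : e' ∈ atlas ℂ XT) {x : XT}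
    (hx : x ∈ e.source) (hx' : tauX x ∈ e'.source) (hxU : x ∈ U) :
    dd f e' (tauX x) * deriv (fun z => e' (tauX (e.symm z))) (e x) = s * dd f e x := by
  have hl : e.symm (e x) = x := e.left_inv hx
  have hO : IsOpen (tauX ⁻¹' e'.source) := e'.open_source.preimage hc
  have d1 : DifferentiableAt ℂ (fun z => e' (tauX (e.symm z))) (e x) := by
    refine (ht e he e' he').differentiableAt ((e.isOpen_inter_preimage_symm hO).mem_nhds ⟨e.map_source hx, ?_⟩)
    show tauX (e.symm (e x)) ∈ e'.source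
    rw [hl]
    exact hx'
  have d2 : DifferentiableAt ℂ (fun z => f (e'.symm z)) (e' (tauX x)) :=
    X20_da hf hU he' hx' ((hτ x).2 hxU)
  have d3 : DifferentiableAt ℂ (fun z => f (e.symm z)) (e x) := X20_da hf hU he hx hxU
  have h2 : HasDerivAt (fun z => f (e'.symm z)) (dd f e' (tauX x)) ((fun z => e' (tauX (e.symm z))) (e x)) := by
    have : (fun z => e' (tauX (e.symm z))) (e x) = e' (tauX x) := by
      show e' (tauX (e.symm (e x))) = e' (tauX x)
      rw [hl]
    rw [this]
    exact d2.hasDerivAt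
  have h3 := h2.comp (e x) d1.hasDerivAt
  have h4 : HasDerivAt (fun z => s * f (e.symm z)) (s * dd f e x) (e x) := d3.hasDerivAt.const_mul s
  have ev : ∀ᶠ z in 𝓝 (e x), tauX (e.symm z) ∈ e'.source := by
    have h5 : Tendsto e.symm (𝓝 (e x)) (𝓝 x) := e.tendsto_symm hx
    exact h5.eventually (hO.mem_nhds hx')
  refine h3.unique (h4.congr_of_eventuallyEq ?_)
  filter_upwards [ev] with z hz
  show f (e'.symm (e' (tauX (e.symm z)))) = s * f (e.symm z)
  rw [e'.left_inv hz, hs]

theorem X20 (h19 : X19_stmt) : X20_stmt := by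
  intro cs H ht
  obtain ⟨hc, hv, hd, -⟩ := h19
  constructor
  · intro e he e' he' x hxZ hx hx'
    have hfst : (tauX x).1.2 = x.1.2 := rfl
    obtain ⟨v1, v2, v3, v4⟩ := hv x
    by_cases h1 : x.1.2 = OnePoint.infty
    · have hV : x ∈ uV := by
        show x.1.2 ≠ OnePoint.some 0
        rw [h1]
        exact OnePoint.infty_ne_coe 0
      have p := X20_pull hc H.oV H.hV 1 (fun y => by rw [one_mul]; exact (hv y).2.2.2) (fun y => (hd y).2.2.2) ht he he' hx hx' hV
      rw [one_mul] at p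
      simp only [eta0]
      have e1 : 2 * (-fZ x) ^ 3 * (1 + fV x ^ 2) = -(2 * fZ x ^ 3 * (1 + fV x ^ 2)) := by ring
      rw [hfst, if_pos h1, if_pos h1, v1, v4, ← p, e1, div_neg, neg_mul, div_mul_eq_mul_div]
    · by_cases h2 : x.1.2 = OnePoint.some 0
      · have p := X20_pull hc H.oY H.hY 1 (fun y => by rw [one_mul]; exact (hv y).2.2.1) (fun y => (hd y).2.2.1) ht he he' hx hx' h1
        rw [one_mul] at p
        simp only [eta0]
        have e1 : 2 * (-fZ x) ^ 3 * (1 + fY x ^ 2) = -(2 * fZ x ^ 3 * (1 + fY x ^ 2)) := by ring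
        rw [hfst, if_neg h1, if_neg h1, if_pos h2, if_pos h2, v1, v3, ← p, e1, div_neg, neg_mul, div_mul_eq_mul_div]
        ring
      · have p := X20_pull hc H.oZ H.hZ (-1) (fun y => by rw [(hv y).1]; ring) (fun y => (hd y).1) ht he he' hx hx' hxZ
        simp only [eta0]
        rw [hfst, if_neg h1, if_neg h1, if_neg h2, if_neg h2, v1, v3, div_mul_eq_mul_div, p]
        ring
  · intro e he e' he' x hxN hx hx'
    have hfst : (tauX x).1.2 = x.1.2 := rfl
    obtain ⟨v1, v2, v3, v4⟩ := hv x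
    by_cases h1 : x.1.2 = OnePoint.infty
    · have hV : x ∈ uV := by
        show x.1.2 ≠ OnePoint.some 0
        rw [h1]
        exact OnePoint.infty_ne_coe 0
      have p := X20_pull hc H.oV H.hV 1 (fun y => by rw [one_mul]; exact (hv y).2.2.2) (fun y => (hd y).2.2.2) ht he he' hx hx' hV
      rw [one_mul] at p
      simp only [eta1]
      rw [hfst, if_pos h1, if_pos h1, v2, v4, ← p]
      ring
    · by_cases h2 : x.1.2 = OnePoint.some 0
      · have p := X20_pull hc H.oY H.hY 1 (fun y => by rw [one_mul]; exact (hv y).2.2.1) (fun y => (hd y).2.2.1) ht he he' hx hx' h1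
        rw [one_mul] at p
        simp only [eta1]
        rw [hfst, if_neg h1, if_neg h1, if_pos h2, if_pos h2, v2, v3, ← p]
        ring
      · have p := X20_pull hc H.oN H.hN (-1) (fun y => by rw [(hv y).2.1]; ring) (fun y => (hd y).2.1) ht he he' hx hx' hxN
        simp only [eta1]
        rw [hfst, if_neg h1, if_neg h1, if_neg h2, if_neg h2, v2, v3, div_mul_eq_mul_div, neg_mul, p]
        ring

end

end Pool.Agent.DL
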